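import Pool.Agent.H98.ABCR.Stmts

set_option autoImplicit false

namespace Pool.Agent.H98.ABCR

open Finset Polynomial

private theorem gco_geom (m : ℕ) : ∑ j ∈ range m, (1 / 2 : ℝ) ^ j = 2 - 2 * (1 / 2) ^ m := by
  induction m with
  | zero => simp
  | succ m ih =>
    rw [Finset.sum_range_succ, ih, pow_succ]
    ring

theorem gco_thm : S_GCO := by
  intro ι _ _ q G hG
  have h1 : ∀ g ∈ G, (1 / 2 : ℝ) ^ q ≤ ∏ i, (1 / 2 : ℝ) ^ (g i) := by
    intro g hg
    rw [Finset.prod_pow_eq_pow_sum]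
    exact pow_le_pow_of_le_one (by norm_num) (by norm_num) (hG g hg)
  have h2 : G ⊆ Fintype.piFinset fun _ : ι => range (q + 1) := by
    intro g hg
    rw [Fintype.mem_piFinset]
    intro i
    rw [Finset.mem_range]
    have := (Finset.single_le_sum (f := fun i => g i) (fun _ _ => Nat.zero_le _)
      (Finset.mem_univ i)).trans (hG g hg)
    omega
  have h3 : (G.card : ℝ) * (1 / 2 : ℝ) ^ q ≤ 2 ^ Fintype.card ι := by
    calc (G.card : ℝ) * (1 / 2 : ℝ) ^ q = ∑ _g ∈ G, (1 / 2 : ℝ) ^ q := by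
          rw [Finset.sum_const, nsmul_eq_mul]
      _ ≤ ∑ g ∈ G, ∏ i, (1 / 2 : ℝ) ^ (g i) := Finset.sum_le_sum h1
      _ ≤ ∑ g ∈ Fintype.piFinset fun _ : ι => range (q + 1), ∏ i, (1 / 2 : ℝ) ^ (g i) :=
          Finset.sum_le_sum_of_subset_of_nonneg h2 fun g _ _ =>
            Finset.prod_nonneg fun i _ => by positivity
      _ = ∏ _i : ι, ∑ j ∈ range (q + 1), (1 / 2 : ℝ) ^ j :=
          (Finset.prod_univ_sum (fun _ : ι => range (q + 1)) fun _ j => (1 / 2 : ℝ) ^ j).symm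
      _ ≤ ∏ _i : ι, (2 : ℝ) := by
          refine Finset.prod_le_prod (fun i _ => by positivity) fun i _ => ?_
          rw [gco_geom]
          have : (0 : ℝ) ≤ 2 * (1 / 2) ^ (q + 1) := by positivity
          linarith
      _ = 2 ^ Fintype.card ι := by
          rw [Finset.prod_const, Finset.card_univ]
  have h4 : (G.card : ℝ) ≤ 2 ^ (q + Fintype.card ι) := by
    have h5 : (0 : ℝ) < 2 ^ q := by positivity
    have h6 : (G.card : ℝ) = (G.card : ℝ) * (1 / 2 : ℝ) ^ q * 2 ^ q := by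
      rw [mul_assoc, ← mul_pow]
      norm_num
    rw [h6, pow_add, mul_comm ((2 : ℝ) ^ q)]
    exact mul_le_mul_of_nonneg_right h3 h5.le
  exact_mod_cast h4

end Pool.Agent.H98.ABCR
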