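import Pool.Agent.H98.ABCR.Stmts

set_option autoImplicit false

namespace Pool.Agent.H98.ABCR

open Finset Polynomial

/-- the polynomial `P_j` -/
private noncomputable def aux_P (n : ℕ) (p : ℕ → ℕ → ℤ) (j : ℕ) : ℝ[X] :=
  ∑ l ∈ range (n + 1), monomial l (p j l : ℝ)

private theorem aux_deg (n : ℕ) (p : ℕ → ℕ → ℤ) (j : ℕ) : (aux_P n p j).natDegree ≤ n := by
  refine natDegree_sum_le_of_forall_le _ _ fun l hl => ?_
  refine (natDegree_monomial_le _).trans ?_
  have := Finset.mem_range.1 hl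
  omega

private theorem aux_coeff (n : ℕ) (p : ℕ → ℕ → ℤ) (j l : ℕ) (hl : l ∈ range (n + 1)) :
    (aux_P n p j).coeff l = (p j l : ℝ) := by
  rw [aux_P, finsetSum_coeff, Finset.sum_eq_single l]
  · rw [coeff_monomial, if_pos rfl]
  · intro l' _ h
    rw [coeff_monomial, if_neg h]
  · intro h
    exact absurd hl h

private theorem aux_f (k n : ℕ) (p : ℕ → ℕ → ℤ) (j : ℕ) :
    expand ℝ k (aux_P n p j) * X ^ j =
      ∑ l ∈ range (n + 1), monomial (k * l + j) (p j l : ℝ) := by
  rw [aux_P, map_sum, Finset.sum_mul]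
  refine Finset.sum_congr rfl fun l _ => ?_
  rw [expand_monomial, monomial_mul_X_pow, mul_comm l k]

private theorem aux_R (k r n : ℕ) (p : ℕ → ℕ → ℤ) :
    (Rpoly k r n p).map (Int.castRingHom ℝ) =
      ∑ j ∈ range (r + 1), expand ℝ k (aux_P n p j) * X ^ j := by
  rw [Rpoly, Polynomial.map_sum]
  refine Finset.sum_congr rfl fun j _ => ?_
  rw [aux_f, Polynomial.map_sum]
  refine Finset.sum_congr rfl fun l _ => ?_
  rw [Polynomial.map_mul, map_C, Polynomial.map_pow, map_X, C_mul_X_pow_eq_monomial]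
  rfl

private theorem aux_eval (k n : ℕ) (p : ℕ → ℕ → ℤ) (i j : ℕ) (t : ℝ) :
    t ^ i * (hasseDeriv i (expand ℝ k (aux_P n p j) * X ^ j)).eval t =
      ∑ l ∈ range (n + 1), (p j l : ℝ) * ((k * l + j).choose i : ℝ) * t ^ (k * l + j) := by
  rw [aux_f, map_sum, eval_finsetSum, Finset.mul_sum]
  refine Finset.sum_congr rfl fun l _ => ?_
  rw [hasseDeriv_monomial, eval_monomial]
  by_cases h : i ≤ k * l + j
  · conv_rhs => rw [← Nat.sub_add_cancel h, pow_add]
    rw [Nat.sub_add_cancel h]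
    ring
  · rw [Nat.choose_eq_zero_of_lt (not_le.1 h)]
    simp

private theorem aux_root {k : ℕ} (hk : Odd k) (u : ℝ) : ∃ t : ℝ, t ^ k = u := by
  have hk0 : k ≠ 0 := by
    rintro rfl
    simp at hk
  rcases le_total 0 u with h | h
  · exact ⟨u ^ ((k : ℝ)⁻¹), Real.rpow_inv_natCast_pow h hk0⟩
  · refine ⟨-((-u) ^ ((k : ℝ)⁻¹)), ?_⟩
    rw [hk.neg_pow, Real.rpow_inv_natCast_pow (by linarith) hk0, neg_neg]

theorem aux_thm (h1 : S_SIEG) (h2 : S_NV) : S_AUX := by
  intro r ε hr hε hε2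
  have hr1 : (1 : ℝ) ≤ r := by exact_mod_cast hr
  have hε1 : ε < 1 := by nlinarith
  obtain ⟨c, hc0, hc⟩ := h1 r ε hε hε1
  refine ⟨c, hc0, ?_⟩
  intro k n hrk hk hn
  obtain ⟨p, ⟨j0, hj0, l0, hl0, hp0⟩, hpA, hdiv⟩ := hc k n hrk hn
  refine ⟨p, _, rfl, hpA, hdiv, ?_⟩
  set M := ⌊(1 - ε) * ((r : ℝ) + 1) * (n + 1)⌋₊ with hM
  have hn1 : (1 : ℝ) ≤ n := by exact_mod_cast hn
  have hk0 : 0 < k := by omega
  have hdivR : (X - 1 : ℝ[X]) ^ M ∣ ∑ j ∈ range (r + 1), expand ℝ k (aux_P n p j) * X ^ j := by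
    rw [← aux_R]
    have := Polynomial.map_dvd (Int.castRingHom ℝ) hdiv
    rwa [Polynomial.map_pow, Polynomial.map_sub, map_X, Polynomial.map_one] at this
  have hMlt : (r : ℝ) * (n + 1) < M + 1 := by
    have h3 := Nat.lt_floor_add_one ((1 - ε) * ((r : ℝ) + 1) * (n + 1))
    rw [← hM] at h3
    nlinarith
  have hne : ∀ j ∈ range (r + 1), aux_P n p j ≠ 0 := by
    by_contra hcon
    push Not at hcon
    obtain ⟨j1, hj1, hz⟩ := hcon
    classical
    let J : Finset ℕ := (range (r + 1)).filter fun j => aux_P n p j ≠ 0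
    have hJ0 : j0 ∈ J := by
      refine Finset.mem_filter.2 ⟨hj0, fun h => hp0 ?_⟩
      have h4 := aux_coeff n p j0 l0 hl0
      rw [h, coeff_zero] at h4
      exact_mod_cast h4.symm
    have hJc : J.card ≤ r := by
      have h5 : J ⊆ (range (r + 1)).erase j1 := by
        intro j hj
        obtain ⟨h6, h7⟩ := Finset.mem_filter.1 hj
        refine Finset.mem_erase.2 ⟨?_, h6⟩
        rintro rfl
        exact h7 hz
      have h6 := Finset.card_le_card h5
      rw [Finset.card_erase_of_mem hj1, Finset.card_range] at h6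
      omega
    let o := J.orderEmbOfFin rfl
    have ho : ∀ a, o a ∈ J := fun a => Finset.orderEmbOfFin_mem J rfl a
    have h8 := (h2 J.card k n M (fun a => o a) (fun a => aux_P n p (o a))
      (Finset.card_pos.2 ⟨j0, hJ0⟩) hk0 o.injective (fun a => by
        have := Finset.mem_range.1 (Finset.mem_filter.1 (ho a)).1
        omega) (fun a => (Finset.mem_filter.1 (ho a)).2) (fun a => aux_deg _ _ _) ?_).1
    · have h9 : M + 1 ≤ r * (n + 1) := h8.trans (Nat.mul_le_mul_right _ hJc)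
      have h10 : (M : ℝ) + 1 ≤ r * (n + 1) := by exact_mod_cast h9
      linarith
    · have h11 : ∑ a, ff k (fun a => o a) (fun a => aux_P n p (o a)) a =
          ∑ j ∈ range (r + 1), expand ℝ k (aux_P n p j) * X ^ j := by
        rw [← Finset.sum_filter_add_sum_filter_not (range (r + 1)) fun j => aux_P n p j ≠ 0]
        have h12 : ∑ j ∈ (range (r + 1)).filter (fun j => ¬ aux_P n p j ≠ 0),
            expand ℝ k (aux_P n p j) * X ^ j = 0 := by
          refine Finset.sum_eq_zero fun j hj => ?_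
          have := (Finset.mem_filter.1 hj).2
          rw [not_not] at this
          rw [this, map_zero, zero_mul]
        rw [h12, add_zero]
        show ∑ a : Fin J.card, expand ℝ k (aux_P n p (o a)) * X ^ (o a) =
          ∑ j ∈ J, expand ℝ k (aux_P n p j) * X ^ j
        have h13 : J = Finset.univ.map o.toEmbedding := by
          ext j
          rw [Finset.mem_map]
          constructor
          · intro hj
            have : j ∈ Set.range o := by
              rw [Finset.range_orderEmbOfFin]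
              exact hj
            obtain ⟨a, ha⟩ := this
            exact ⟨a, Finset.mem_univ a, ha⟩
          · rintro ⟨a, _, rfl⟩
            exact ho a
        conv_rhs => rw [h13]
        rw [Finset.sum_map]
        rfl
      rw [h11]
      exact hdivR
  intro x y N D hx hy hxy hN hD
  obtain ⟨t, ht⟩ := aux_root hk (-(x : ℝ) / y)
  have hxR : (x : ℝ) ≠ 0 := by exact_mod_cast hx
  have hyR : (y : ℝ) ≠ 0 := by exact_mod_cast hy
  have hNR : (N : ℝ) ≠ 0 := by exact_mod_cast hN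
  have hDR : (D : ℝ) ≠ 0 := by exact_mod_cast hD
  have ht0 : t ≠ 0 := by
    rintro rfl
    rw [zero_pow hk0.ne'] at ht
    have := div_ne_zero (neg_ne_zero.2 hxR) hyR
    exact this ht.symm
  have ht1 : t ^ k ≠ 1 := by
    rw [ht]
    intro h
    rw [div_eq_one_iff_eq hyR] at h
    apply hxy
    have : ((x + y : ℤ) : ℝ) = 0 := by
      push_cast
      linarith
    exact_mod_cast this
  let v : Fin (r + 1) → ℝ := fun j => ((N : ℝ) / D) ^ (j : ℕ) * (t ^ (j : ℕ))⁻¹
  have hv : v ≠ 0 := by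
    intro h
    have := congrFun h 0
    simp [v] at this
  have hcar := (h2 (r + 1) k n M (fun a => (a : ℕ)) (fun a => aux_P n p a) (Nat.succ_pos _) hk0
      Fin.val_injective (fun a => by have := a.2; omega)
      (fun a => hne a (Finset.mem_range.2 a.2)) (fun a => aux_deg _ _ _) (by
        have : ∑ a, ff k (fun a : Fin (r + 1) => (a : ℕ)) (fun a => aux_P n p a) a =
            ∑ j ∈ range (r + 1), expand ℝ k (aux_P n p j) * X ^ j := by
          rw [Finset.sum_range]
          rfl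
        rw [this]
        exact hdivR)).2 t v ht0 ht1 hv
  obtain ⟨i, hi, hne0⟩ := hcar
  refine ⟨i, by omega, ?_⟩
  intro hF
  apply hne0
  have hFR : (Fval k r n i p x y N D : ℝ) =
      (y : ℝ) ^ n * (D : ℝ) ^ r * t ^ i *
        ∑ a, v a * (hasseDeriv i (ff k (fun a : Fin (r + 1) => (a : ℕ))
          (fun a => aux_P n p a) a)).eval t := by
    rw [Fval, Finset.mul_sum]
    push_cast
    rw [Finset.sum_range]
    refine Finset.sum_congr rfl fun j _ => ?_
    have h14 : (y : ℝ) ^ n * (D : ℝ) ^ r * t ^ i *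
        (v j * (hasseDeriv i (ff k (fun a : Fin (r + 1) => (a : ℕ))
          (fun a => aux_P n p a) j)).eval t) =
        (y : ℝ) ^ n * (D : ℝ) ^ r * v j * (t ^ i * (hasseDeriv i (expand ℝ k
          (aux_P n p j) * X ^ (j : ℕ))).eval t) := by
      show (y : ℝ) ^ n * (D : ℝ) ^ r * t ^ i *
        (v j * (hasseDeriv i (expand ℝ k (aux_P n p j) * X ^ (j : ℕ))).eval t) = _
      ring
    rw [h14, aux_eval, Finset.mul_sum]
    refine Finset.sum_congr rfl fun l hl => ?_
    have hl' : l ≤ n := by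
      have := Finset.mem_range.1 hl
      omega
    have hj' : (j : ℕ) ≤ r := by
      have := j.2
      omega
    show _ = (y : ℝ) ^ n * (D : ℝ) ^ r * (((N : ℝ) / D) ^ (j : ℕ) * (t ^ (j : ℕ))⁻¹) * _
    have h15 : t ^ (k * l + (j : ℕ)) = (-(x : ℝ) / y) ^ l * t ^ (j : ℕ) := by
      rw [pow_add, pow_mul, ht]
    have h16 : (y : ℝ) ^ n = y ^ (n - l) * y ^ l := by
      rw [← pow_add, Nat.sub_add_cancel hl']
    have h17 : (D : ℝ) ^ r = D ^ (r - (j : ℕ)) * D ^ (j : ℕ) := by
      rw [← pow_add, Nat.sub_add_cancel hj']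
    rw [h15, h16, h17, div_pow, div_pow]
    have h18 : t ^ (j : ℕ) ≠ 0 := pow_ne_zero _ ht0
    have h19 : (y : ℝ) ^ l ≠ 0 := pow_ne_zero _ hyR
    have h20 : (D : ℝ) ^ (j : ℕ) ≠ 0 := pow_ne_zero _ hDR
    field_simp
  rw [hF, Int.cast_zero] at hFR
  have h21 : (y : ℝ) ^ n * (D : ℝ) ^ r * t ^ i ≠ 0 :=
    mul_ne_zero (mul_ne_zero (pow_ne_zero _ hyR) (pow_ne_zero _ hDR)) (pow_ne_zero _ ht0)
  exact (mul_eq_zero.1 hFR.symm).resolve_left h21

end Pool.Agent.H98.ABCR
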