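import Pool.Agent.H98.ABCR.Stmts

set_option autoImplicit false

namespace Pool.Agent.H98.ABCR

open Finset Polynomial

private theorem wsp_mono (i m : ℕ) (a : ℝ) :
    X ^ i * hasseDeriv i (monomial m a) = monomial m ((m.choose i : ℝ) * a) := by
  rw [hasseDeriv_monomial]
  by_cases h : i ≤ m
  · rw [X_pow_mul_monomial, Nat.sub_add_cancel h]
  · rw [Nat.choose_eq_zero_of_lt (not_le.1 h), Nat.cast_zero, zero_mul, monomial_zero_right,
      monomial_zero_right, mul_zero]

/-- the polynomial with expansion given by the derivative -/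
private noncomputable def wsp_Q (k c i : ℕ) (P : ℝ[X]) : ℝ[X] :=
  ∑ l ∈ range (P.natDegree + 1), monomial l (((k * l + c).choose i : ℝ) * P.coeff l)

private theorem wsp_deg (k c i : ℕ) (P : ℝ[X]) : (wsp_Q k c i P).natDegree ≤ P.natDegree := by
  refine natDegree_sum_le_of_forall_le _ _ fun l hl => ?_
  refine (natDegree_monomial_le _).trans ?_
  have := Finset.mem_range.1 hl
  omega

private theorem wsp_key (k c i : ℕ) (P : ℝ[X]) :
    X ^ i * hasseDeriv i (expand ℝ k P * X ^ c) = X ^ c * expand ℝ k (wsp_Q k c i P) := by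
  have h1 : expand ℝ k P * X ^ c =
      ∑ l ∈ range (P.natDegree + 1), monomial (k * l + c) (P.coeff l) := by
    conv_lhs => rw [P.as_sum_range' _ (Nat.lt_succ_self _)]
    rw [map_sum, Finset.sum_mul]
    refine Finset.sum_congr rfl fun l _ => ?_
    rw [expand_monomial, monomial_mul_X_pow, mul_comm l k]
  rw [h1, map_sum, Finset.mul_sum, wsp_Q, map_sum, Finset.mul_sum]
  refine Finset.sum_congr rfl fun l _ => ?_
  rw [wsp_mono, expand_monomial, X_pow_mul_monomial, mul_comm l k]

theorem wsp_thm : S_WSP := by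
  intro q k n c P hk hP
  let Q : Matrix (Fin q) (Fin q) ℝ[X] := Matrix.of fun i a => wsp_Q k (c a) i (P a)
  refine ⟨Q.det, ?_, ?_⟩
  · rw [Matrix.det_apply']
    refine natDegree_sum_le_of_forall_le _ _ fun σ _ => ?_
    refine natDegree_mul_le.trans ?_
    rw [natDegree_intCast, zero_add]
    refine (natDegree_prod_le _ _).trans ?_
    refine (Finset.sum_le_card_nsmul _ _ n fun a _ => ?_).trans ?_
    · exact (wsp_deg _ _ _ _).trans (hP a)
    · rw [Finset.card_univ, Fintype.card_fin, smul_eq_mul]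
  · have h1 : X ^ (∑ i : Fin q, (i : ℕ)) * wr (ff k c P) =
        (Matrix.of fun i a : Fin q => X ^ (i : ℕ) * hasseDeriv (i : ℕ) (ff k c P a)).det := by
      rw [wr, ← Finset.prod_pow_eq_pow_sum, ← Matrix.det_mul_column]
      rfl
    have h2 : X ^ (∑ a, c a) * expand ℝ k Q.det =
        (Matrix.of fun i a : Fin q => X ^ (c a) * expand ℝ k (Q i a)).det := by
      rw [AlgHom.map_det, ← Finset.prod_pow_eq_pow_sum, ← Matrix.det_mul_row]
      rfl
    rw [h1, h2]
    congr 1
    ext1 i a
    exact wsp_key k (c a) i (P a)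

end Pool.Agent.H98.ABCR
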